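import Pool.Agent.helper57.FLD.I

/-!
# Cyclic orderings of edge-disjoint spanning trees: elimination orders

MP_974a61_co. The vertices of degree at most `K + 1`, and those with at most two neighbours, can be removed one
after the other; what remains has at most five vertices (for three trees). The graph may have parallel
edges; the spanning trees `Pool.Agent.ECO.IsSpanningTree` are the ones of the hand-in UpToOneEdge.
-/

set_option autoImplicit false

namespace Pool.Agent.Results.MP_974a61_co.EliminationOrder

open Set Pool.Agent.ECO

/-- The neighbours of `v` in `H` which are in `B` or are eliminated after `v`. -/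
def later {V : Type*} (H : SimpleGraph V) (B : Set V) (r : V → ℕ) (v : V) : Set V :=
  {u | H.Adj v u ∧ (u ∈ B ∨ r v < r u)}

/-- Let `T 0, ..., T (K-1)` be `K ≥ 2` pairwise disjoint spanning trees of a finite multigraph with
`n ≥ 2` vertices (`ends x` is the pair of end vertices of the edge `x`). Let `B` be a set of vertices with
`(K - 2) |B| < 2 K` (if `K = 3`: `|B| ≤ 5`), let `H` be a simple graph on the same vertices which contains the
pairs of ends of all edges of the trees, and let the vertices outside `B` be linearly ordered by `r` such
that for each of them its later neighbours in `H` (those in `B` or with a larger `r`) are pairwise adjacent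
in `H`, and its degree in the union of the trees is at most `K + 1` or it has at most two later neighbours
in `H`. Then the `N = K (n - 1)` edges of the trees have a cyclic ordering, written as an `N`-periodic
sequence `e 0, e 1, ...` in which each of the edges occurs exactly once in each period, such that every
`n - 1` consecutive edges form a spanning tree. -/
theorem result {V E : Type*} [Fintype V] [Finite E] (ends : E → Sym2 V)
    (hV : 2 ≤ Fintype.card V) (K : ℕ) (hK : 2 ≤ K) (T : Fin K → Set E)
    (hT : ∀ i, IsSpanningTree ends (T i)) (hdis : ∀ i j, i ≠ j → Disjoint (T i) (T j))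
    (B : Set V) (hB : (K - 2) * B.ncard < 2 * K) (r : V → ℕ) (hr : InjOn r Bᶜ) (H : SimpleGraph V)
    (hH : ∀ x ∈ ⋃ i, T i, ∀ u v, ends x = s(u, v) → H.Adj u v)
    (hch : ∀ v ∉ B, ∀ a ∈ later H B r v, ∀ b ∈ later H B r v, a ≠ b → H.Adj a b)
    (hdeg : ∀ v ∉ B, {x ∈ ⋃ i, T i | v ∈ ends x}.ncard ≤ K + 1 ∨ (later H B r v).ncard ≤ 2) :
    ∃ e : ℕ → E,
      (∀ j, e (j + K * (Fintype.card V - 1)) = e j) ∧
      BijOn e (Iio (K * (Fintype.card V - 1))) (⋃ i, T i) ∧
      ∀ j, IsSpanningTree ends (e '' Ico j (j + (Fintype.card V - 1))) :=
  Pool.Agent.helper57.FLD.elim_final ends hV K hK T hT hdis B hB r hr H hH (later H B r) (fun _ => rfl) hch hdeg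

end Pool.Agent.Results.MP_974a61_co.EliminationOrder
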