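import Pool.Agent.helper97.KR.Fin

/-!
# Cyclic orderings of three edge-disjoint spanning trees: layers with vertices of degree at most 4, and a reduction

MP_974a61_co (three trees, finite multigraphs).
-/

set_option autoImplicit false

namespace Pool.Agent.Results.MP_974a61_co.LayeredDegrees

/-- A finite multigraph has the vertex set `V` and the edge set `E`, the edge `e` has the ends `ends e`.
The set `F` of edges is a spanning tree: it connects all vertices and has `|V| - 1` elements. -/
def IsSpanningTree {V E : Type} [Fintype V] (ends : E → Sym2 V) (F : Set E) : Prop :=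
  (SimpleGraph.fromEdgeSet (ends '' F)).Connected ∧ F.ncard + 1 = Fintype.card V

/-- The edge set is the disjoint union of the three spanning trees `T 0, T 1, T 2`. -/
def ThreeTrees {V E : Type} [Fintype V] (ends : E → Sym2 V) (T : Fin 3 → Set E) : Prop :=
  (∀ i, IsSpanningTree ends (T i)) ∧ (∀ i j, i ≠ j → Disjoint (T i) (T j)) ∧ ∀ e, ∃ i, e ∈ T i

/-- There is a cyclic ordering of all `3 (n - 1)` edges, `n = |V|`, in which every `n - 1` cyclically
consecutive edges form a spanning tree.  It is written as a `3 (n - 1)`-periodic sequence `c j`, `j ∈ ℤ`,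
in which every edge occurs exactly once in a period. -/
def CyclicOrdering {V E : Type} [Fintype V] (ends : E → Sym2 V) : Prop :=
  ∃ c : ℤ → E, (∀ j, c (j + 3 * ((Fintype.card V : ℤ) - 1)) = c j) ∧
    Set.BijOn c (Set.Ico 0 (3 * ((Fintype.card V : ℤ) - 1))) Set.univ ∧
    ∀ j, IsSpanningTree ends (c '' Set.Ico j (j + ((Fintype.card V : ℤ) - 1)))

/-- (1) Layers: `{x} = R 0 ⊆ R 1 ⊆ ... ⊆ R k = V`, every tree induces a connected graph on every `R i`, and
every vertex of `R (i + 1)` outside of `R i` is adjacent to a vertex of `R i` or is the end of at most 4 edges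
with both ends in `R (i + 1)`.  Then there is a cyclic ordering.
(2) Reduction: if all multigraphs which are the union of three edge-disjoint spanning trees, in which every
edge cut has at least 5 edges, every set of `m` vertices, `2 ≤ m < n`, spans at most `3 m - 4` edges, and no
vertex is adjacent to all others, have a cyclic ordering, then all unions of three edge-disjoint spanning
trees have one. -/
theorem result :
    (∀ (V E : Type) [Fintype V] [Finite E] (ends : E → Sym2 V) (T : Fin 3 → Set E) (R : ℕ → Set V) (x : V) (k : ℕ),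
      2 ≤ Fintype.card V → ThreeTrees ends T →
      R 0 = {x} → R k = Set.univ → (∀ i < k, R i ⊆ R (i + 1)) →
      (∀ i < k, ∀ j, ((SimpleGraph.fromEdgeSet (ends '' T j)).induce (R i)).Connected) →
      (∀ i < k, ∀ v ∈ R (i + 1), v ∉ R i →
        {e | v ∈ ends e ∧ ∀ u ∈ ends e, u ∈ R (i + 1)}.ncard ≤ 4 ∨ ∃ u ∈ R i, ∃ e, ends e = s(u, v)) →
      CyclicOrdering ends) ∧
    ((∀ (V E : Type) [Fintype V] [Finite E] (ends : E → Sym2 V) (T : Fin 3 → Set E),
      2 ≤ Fintype.card V → ThreeTrees ends T →
      (∀ U : Set V, U.Nonempty → U ≠ Set.univ →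
        5 ≤ {e | (∃ v ∈ ends e, v ∈ U) ∧ ∃ v ∈ ends e, v ∉ U}.ncard) →
      (∀ U : Set V, 2 ≤ U.ncard → U ≠ Set.univ → {e | ∀ v ∈ ends e, v ∈ U}.ncard + 4 ≤ 3 * U.ncard) →
      (∀ x : V, ∃ v, v ≠ x ∧ ∀ e, ends e ≠ s(x, v)) →
      CyclicOrdering ends) →
    ∀ (V E : Type) [Fintype V] [Finite E] (ends : E → Sym2 V) (T : Fin 3 → Set E),
      2 ≤ Fintype.card V → ThreeTrees ends T → CyclicOrdering ends) := by
  refine ⟨?_, ?_⟩
  · intro V E _ _ ends T R x k h2 h3 h0 hk hsub hcon hdom
    have : Fintype E := Fintype.ofFinite E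
    exact Pool.Agent.helper97.KR.fLayered ends T R x k h2 h3.1 h3.2.1 h3.2.2 h0 hk hsub hcon
      (fun i hi v hv hv' h5 => (hdom i hi v hv hv').resolve_left (by omega))
  · intro P V E _ _ ends T h2 h3
    have : Fintype E := Fintype.ofFinite E
    refine Pool.Agent.helper97.KR.fReduction ?_ ends h2 ⟨T, h3.1, h3.2.1, h3.2.2⟩
    intro V E _ _ ends h2 hT h5 hs hd
    obtain ⟨T, t1, t2, t3⟩ := hT
    exact P V E ends T h2 ⟨t1, t2, t3⟩ h5 hs hd

end Pool.Agent.Results.MP_974a61_co.LayeredDegrees
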