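import Pool.Agent.helper57.PP.All
import Pool.Agent.helper57.PP.Main

/-!
# Cyclic orderings of three edge-disjoint spanning trees: triangulations of the projective plane

MP_974a61_co, a case of the conjecture of Kajitani, Ueno and Miyano for three spanning trees.  Let `F`
be the set of the triangles of a triangulation (simplicial complex) of the projective plane with the
vertex set `V`, `n = |V|`: every edge is in exactly two triangles, the links of the vertices are
connected, the graph `gr (edges F)` of the edges is connected, and the Euler characteristic is 1.  Then
there is one cyclic ordering of the edges in which any `n - 1` cyclically consecutive edges form a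
spanning tree, and for all pairwise edge-disjoint spanning trees `T 0, T 1, T 2` of this graph it is a
cyclic ordering of their edges.
-/

set_option autoImplicit false

namespace Pool.Agent.Results.MP_974a61_co.ProjectivePlane

open Pool.Agent.helper57.PP

theorem result (V : Type) [Fintype V] [DecidableEq V] (F : Finset (Finset V)) (hF : IsSurface F)
    (hc : (gr (edges F)).Connected) (hn : Fintype.card V + F.card = (edges F).card + 1) :
    ∃ e : Fin (3 * (Fintype.card V - 1)) → Sym2 V, Function.Injective e ∧
      (∀ z, (∃ j, e j = z) ↔ z ∈ (gr (edges F)).edgeSet) ∧
      (∀ T : Fin 3 → SimpleGraph V, (∀ i, (T i).IsTree) →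
        (∀ i j, i ≠ j → Disjoint (T i).edgeSet (T j).edgeSet) → (∀ i, T i ≤ gr (edges F)) →
        ∀ z, (∃ j, e j = z) ↔ ∃ i, z ∈ (T i).edgeSet) ∧
      ∀ j, (SimpleGraph.fromEdgeSet {z | ∃ i < Fintype.card V - 1, z = cyc e j i}).IsTree :=
  main_of t_FINAL V F hF hc hn

end Pool.Agent.Results.MP_974a61_co.ProjectivePlane
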