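import Pool.Agent.helper58.ECO.F

set_option autoImplicit false

namespace Pool.Agent.Results.MP_974a61_co.UpToOneEdge

open Set Pool.Agent.ECO

/-- Let `T 0, ..., T (K-1)` be `K ≥ 1` pairwise disjoint spanning trees of a finite multigraph with
`n ≥ 2` vertices (`ends x` is the pair of end vertices of the edge `x`). Their `N = K (n - 1)` edges
have a cyclic ordering, written as an `N`-periodic sequence `e 0, e 1, ...` in which each of the
edges occurs exactly once in each period, such that each tree occupies `n - 1` consecutive places,
each window of `n - 1` consecutive edges that does not run from the last tree into the first one is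
a spanning tree, and every `n` consecutive edges connect all vertices. -/
theorem result {V E : Type*} [Fintype V] [Finite E] (ends : E → Sym2 V)
    (hV : 2 ≤ Fintype.card V) (K : ℕ) (hK : 1 ≤ K) (T : Fin K → Set E)
    (hT : ∀ i, IsSpanningTree ends (T i)) (hdis : ∀ i j, i ≠ j → Disjoint (T i) (T j)) :
    ∃ e : ℕ → E,
      (∀ j, e (j + K * (Fintype.card V - 1)) = e j) ∧
      BijOn e (Iio (K * (Fintype.card V - 1))) (⋃ i, T i) ∧
      (∀ (i : Fin K) (q : ℕ), q < Fintype.card V - 1 →
        e (i * (Fintype.card V - 1) + q) ∈ T i) ∧
      (∀ j, j ≤ (K - 1) * (Fintype.card V - 1) →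
        IsSpanningTree ends (e '' Ico j (j + (Fintype.card V - 1)))) ∧
      (∀ j, Connects ends (e '' Ico j (j + Fintype.card V))) :=
  final ends hV K hK T hT hdis

end Pool.Agent.Results.MP_974a61_co.UpToOneEdge
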